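import Pool.Agent.H.MP_b108d3_an.A

namespace Pool.Agent.Results.MP_b108d3_an.Yes

open Filter Topology Set Pool.Agent.H.MP_b108d3_an
open scoped ENNReal

def L0 {T : Type} (G : SimpleGraph T) (f : T → ℂ) : Prop :=
  ∀ ε : ℝ, 0 < ε → {e : T × T | G.Adj e.1 e.2 ∧ ε ≤ ‖f e.1 - f e.2‖}.Finite

def NormLe {T : Type} (G : SimpleGraph T) (o : T) (f : T → ℂ) (c : ℝ) : Prop :=
  ‖f o‖ ≤ c ∧ ∀ v w, G.Adj v w → ‖f v - f w‖ ≤ c

def Hyp {T : Type} (G : SimpleGraph T) (o : T) (φ : T → T) (lam : ℂ) (f : T → ℂ) : Prop :=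
  ∀ g, L0 G g → ∀ ε : ℝ, 0 < ε → ∃ n : ℕ, NormLe G o (lam ^ n • f ∘ φ^[n] - g) ε

variable {T : Type} {G : SimpleGraph T}

theorem L0.mono {f g : T → ℂ} (h : L0 G g) {c : ℝ} (hc : 0 < c)
    (a : ∀ v w, ‖f v - f w‖ ≤ c * ‖g v - g w‖) : L0 G f := fun ε hε =>
  (h (ε / c) (by positivity)).subset fun e b => ⟨b.1, (div_le_iff₀' hc).2 (b.2.trans (a _ _))⟩

theorem L0.near {o : T} {f : T → ℂ} (h : ∀ ε > 0, ∃ g, L0 G g ∧ NormLe G o (f - g) ε) : L0 G f :=
  fun ε hε => by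
    obtain ⟨g, a, b⟩ := h (ε / 2) (half_pos hε)
    refine (a (ε / 2) (half_pos hε)).subset fun e c => ⟨c.1, ?_⟩
    have := norm_add_le ((f - g) e.1 - (f - g) e.2) (g e.1 - g e.2)
    rw [show (f - g) e.1 - (f - g) e.2 + (g e.1 - g e.2) = f e.1 - f e.2 by simp; ring] at this
    linarith [b.2 _ _ c.1, c.2]

def SS (G : SimpleGraph T) : Submodule ℂ (T → ℂ) where
  carrier := {f | L0 G f}
  zero_mem' := fun ε hε => finite_empty.subset fun e h => hε.not_ge (by simpa using h.2)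
  add_mem' := fun {f g} a b ε hε => ((a _ (half_pos hε)).union (b _ (half_pos hε))).subset
    fun e h => by
      by_contra c
      simp only [mem_union, mem_ofPred_eq, h.1, true_and, not_or, not_le] at c
      have := norm_add_le (f e.1 - f e.2) (g e.1 - g e.2)
      rw [show f e.1 - f e.2 + (g e.1 - g e.2) = (f + g) e.1 - (f + g) e.2 by simp; ring] at this
      linarith [h.2]
  smul_mem' := fun c f a => L0.mono a (c := ‖c‖ + 1) (by positivity) fun v w => by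
    rw [Pi.smul_apply, Pi.smul_apply, ← smul_sub, norm_smul]
    nlinarith [norm_nonneg (f v - f w)]

def XX (G : SimpleGraph T) (_ : T) (_ : G.Connected) : Type := SS G

variable {o : T} {hG : G.Connected}

noncomputable instance : AddCommGroup (XX G o hG) := inferInstanceAs (AddCommGroup (SS G))

noncomputable instance : Module ℂ (XX G o hG) := inferInstanceAs (Module ℂ (SS G))

def DD (G : SimpleGraph T) (o : T) (f : T → ℂ) : Option G.Dart → ℂ
  | none => f o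
  | some d => f d.fst - f d.snd

theorem DD_iff (f : T → ℂ) (c : ℝ) : (∀ i, ‖DD G o f i‖ ≤ c) ↔ NormLe G o f c :=
  ⟨fun h => ⟨h none, fun v w a => h (some ⟨(v, w), a⟩)⟩, fun h i => by
    rcases i with _ | d; exacts [h.1, h.2 _ _ d.adj]⟩

theorem L0.bd {f : T → ℂ} (h : L0 G f) (o : T) : ∃ c, NormLe G o f c := by
  obtain ⟨c, hc⟩ := ((h 1 one_pos).image fun e => ‖f e.1 - f e.2‖).bddAbove
  refine ⟨max ‖f o‖ (max 1 c), le_max_left _ _, fun v w a => le_max_of_le_right ?_⟩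
  rcases le_total 1 ‖f v - f w‖ with b | b
  exacts [le_max_of_le_right (hc ⟨(v, w), ⟨a, b⟩, rfl⟩), le_max_of_le_left b]

noncomputable def JJ : XX G o hG →ₗ[ℂ] lp (fun _ : Option G.Dart => ℂ) ∞ where
  toFun f := ⟨DD G o f.1, memℓp_infty (let ⟨c, h⟩ := L0.bd f.2 o; ⟨c, by
    rintro _ ⟨i, rfl⟩; exact (DD_iff _ _).2 h i⟩)⟩
  map_add' f g := lp.ext (funext fun i => by
    rcases i with _ | d
    · rfl
    · exact add_sub_add_comm _ _ _ _)
  map_smul' c f := lp.ext (funext fun i => by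
    rcases i with _ | d
    · rfl
    · exact (mul_sub _ _ _).symm)

theorem pt (hG : G.Connected) (v : T) : ∃ K : ℝ, ∀ f c, NormLe G o f c → ‖f v‖ ≤ K * c := by
  obtain ⟨p⟩ := hG v o
  induction p with
  | nil => exact ⟨1, fun f c h => by simpa using h.1⟩
  | @cons u w _ a p ih =>
    obtain ⟨K, hK⟩ := ih
    exact ⟨K + 1, fun f c h => by linarith [hK f c h, h.2 _ _ a, norm_sub_norm_le (f u) (f w)]⟩

noncomputable instance : NormedAddCommGroup (XX G o hG) :=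
  NormedAddCommGroup.induced _ _ JJ ((injective_iff_map_eq_zero _).2 fun f h =>
    Subtype.ext (funext fun v => by
      obtain ⟨K, hK⟩ := pt (o := o) hG v
      exact norm_le_zero_iff.1 ((hK f.1 0 ((DD_iff _ _).1 fun i =>
        (congrArg (fun x : lp _ _ => ‖x i‖) h).trans_le (by simp))).trans_eq (mul_zero _))))

noncomputable instance : NormedSpace ℂ (XX G o hG) := NormedSpace.induced ℂ _ _ JJ

theorem norm_iff (f : XX G o hG) (c : ℝ) : ‖f‖ ≤ c ↔ NormLe G o f.1 c :=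
  Iff.trans ⟨fun h i => (lp.norm_apply_le_norm ENNReal.top_ne_zero (JJ f) i).trans h,
    fun h => lp.norm_le_of_forall_le ((norm_nonneg _).trans (h none)) h⟩ (DD_iff _ _)

instance : CompleteSpace (XX G o hG) := Metric.complete_of_cauchySeq_tendsto fun u hu => by
  have h1 : ∀ v, CauchySeq fun n => (u n).1 v := fun v => by
    obtain ⟨K, hK⟩ := pt (o := o) hG v
    exact ((((LinearMap.proj v).comp (SS G).subtype : XX G o hG →ₗ[ℂ] ℂ).mkContinuous K fun f =>
      hK _ _ ((norm_iff f _).1 le_rfl)).uniformContinuous.comp_cauchySeq hu)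
  choose f hf using fun v => cauchySeq_tendsto_of_complete (h1 v)
  have h2 : ∀ ε > 0, ∃ N, ∀ n ≥ N, NormLe G o (f - (u n).1) ε := fun ε hε => by
    obtain ⟨N, hN⟩ := Metric.cauchySeq_iff.1 hu ε hε
    have : ∀ n ≥ N, ∀ᶠ m in atTop, NormLe G o ((u m).1 - (u n).1) ε := fun n hn =>
      (eventually_ge_atTop N).mono fun m hm => (norm_iff (u m - u n) ε).1
        ((dist_eq_norm _ _).ge.trans (hN m hm n hn).le)
    exact ⟨N, fun n hn => ⟨le_of_tendsto ((hf o).sub_const _).norm ((this n hn).mono fun _ h => h.1),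
      fun v w a => le_of_tendsto (((hf v).sub_const _).sub ((hf w).sub_const _)).norm
        ((this n hn).mono fun _ h => h.2 v w a)⟩⟩
  refine ⟨⟨f, L0.near (o := o) fun ε hε => let ⟨N, h⟩ := h2 ε hε; ⟨_, (u N).2, h N le_rfl⟩⟩,
    Metric.tendsto_atTop.2 fun ε hε => ?_⟩
  obtain ⟨N, h⟩ := h2 _ (half_pos hε)
  exact ⟨N, fun n hn => by
    rw [dist_comm, dist_eq_norm]
    exact ((norm_iff _ _).2 (h n hn)).trans_lt (half_lt_self hε)⟩

theorem nl_of {f : T → ℂ} {M : ℝ} (h : ∀ v, ‖f v‖ ≤ M) : NormLe G o f (2 * M) :=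
  ⟨by linarith [h o, norm_nonneg (f o)], fun v w _ => by linarith [norm_sub_le (f v) (f w), h v, h w]⟩

noncomputable def cl (R x : ℝ) : ℝ := max (min x R) (-R)

theorem cl_lip (R x y : ℝ) : |cl R x - cl R y| ≤ |x - y| :=
  (abs_max_sub_max_le_abs _ _ _).trans (by simpa using abs_min_sub_min_le_max x R y R)

noncomputable def cc (R : ℝ) (z : ℂ) : ℂ := ⟨cl R z.re, cl R z.im⟩

theorem cc_lip (R : ℝ) (z w : ℂ) : ‖cc R z - cc R w‖ ≤ 2 * ‖z - w‖ := by
  linarith [Complex.norm_le_abs_re_add_abs_im (cc R z - cc R w), Complex.abs_re_le_norm (z - w),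
    Complex.abs_im_le_norm (z - w), show |(cc R z - cc R w).re| ≤ |(z - w).re| from cl_lip _ _ _,
    show |(cc R z - cc R w).im| ≤ |(z - w).im| from cl_lip _ _ _]

theorem cc_eq {R : ℝ} {z : ℂ} (h : ‖z‖ ≤ R) : cc R z = z := by
  have e : ∀ x, |x| ≤ R → cl R x = x := fun x a => by
    rw [cl, min_eq_left (abs_le.1 a).2, max_eq_left (abs_le.1 a).1]
  rw [cc, e _ ((Complex.abs_re_le_norm z).trans h), e _ ((Complex.abs_im_le_norm z).trans h)]

theorem cc_bd {R : ℝ} (h : 0 ≤ R) (z : ℂ) : ‖cc R z‖ ≤ R + R :=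
  have e : ∀ x, |cl R x| ≤ R := fun x => abs_le.2 ⟨le_max_right _ _, max_le (min_le_right _ _) (by linarith)⟩
  (Complex.norm_le_abs_re_add_abs_im _).trans (add_le_add (e _) (e _))

theorem result (T : Type) (G : SimpleGraph T) (o : T) (φ : T → T) (lam : ℂ) (hG : G.Connected)
    [Infinite T] (hf : ∀ v, (G.neighborSet v).Finite)
    (hφ : ∃ C : ℝ, ∀ f, L0 G f → L0 G (f ∘ φ) ∧ ∀ c, NormLe G o f c → NormLe G o (f ∘ φ) (C * c))
    (hl : ‖lam‖ ≤ 1) (hh : ∃ f, L0 G f ∧ Hyp G o φ lam f) :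
    ∃ M : Submodule ℂ (T → ℂ), (∀ f ∈ M, L0 G f) ∧
      (∀ f, L0 G f → (∀ ε : ℝ, 0 < ε → ∃ g ∈ M, NormLe G o (f - g) ε) → f ∈ M) ∧
      ¬ FiniteDimensional ℂ M ∧ ∀ f ∈ M, f ≠ 0 → Hyp G o φ lam f := by
  classical
  obtain ⟨C, hC⟩ := hφ
  obtain ⟨x0, hx0, hx⟩ := hh
  let A : XX G o hG →ₗ[ℂ] XX G o hG :=
    ⟨⟨fun f => ⟨f.1 ∘ φ, (hC _ f.2).1⟩, fun _ _ => rfl⟩, fun _ _ => rfl⟩
  let B : XX G o hG →L[ℂ] XX G o hG := lam • A.mkContinuous C fun f =>
    (norm_iff _ _).2 ((hC _ f.2).2 _ ((norm_iff f _).1 le_rfl))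
  have hB : ∀ n (f : XX G o hG), ((B ^ n) f).1 = lam ^ n • f.1 ∘ φ^[n] := fun n f => by
    induction n with
    | zero => simp
    | succ n ih =>
      rw [pow_succ', mul_apply_eq_comp, pow_succ', mul_smul, Function.iterate_succ]
      exact congrArg (fun g => lam • g ∘ φ) ih
  have hy : ∀ f : XX G o hG, (DenseRange fun n => (B ^ n) f) ↔ Hyp G o φ lam f.1 := fun f => by
    rw [Metric.denseRange_iff]
    refine ⟨fun h g a ε hε => ?_, fun h g ε hε => ?_⟩
    · obtain ⟨n, b⟩ := h ⟨g, a⟩ ε hε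
      rw [dist_comm, dist_eq_norm] at b
      exact ⟨n, hB n f ▸ (norm_iff _ _).1 b.le⟩
    · obtain ⟨n, b⟩ := h g.1 g.2 _ (half_pos hε)
      rw [← hB] at b
      exact ⟨n, by
        rw [dist_comm, dist_eq_norm]; exact ((norm_iff _ _).2 b).trans_lt (half_lt_self hε)⟩
  have ob : ∀ (f : XX G o hG) M, (∀ v, ‖f.1 v‖ ≤ M) → ∀ n, ‖(B ^ n) f‖ ≤ 2 * M := fun f M h n =>
    (norm_iff _ _).2 (hB n f ▸ nl_of fun v => (norm_mul_le _ _).trans ((mul_le_of_le_one_left
      (norm_nonneg _) ((norm_pow_le _ _).trans (pow_le_one₀ (norm_nonneg _) hl))).trans (h _)))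
  have : Std.Symm fun a b : T => a ≠ b ∧ ¬ G.Adj a b := ⟨fun a b h => ⟨h.1.symm, fun c => h.2 c.symm⟩⟩
  obtain ⟨v, -, hv⟩ := exists_seq_of_forall_finset_exists' (fun _ : T => True)
    (fun a b => a ≠ b ∧ ¬ G.Adj a b) fun s _ => by
      obtain ⟨y, hy⟩ := (s.finite_toSet.union (s.finite_toSet.biUnion fun a _ => hf a)).exists_notMem
      exact ⟨y, trivial, fun x hx => ⟨fun c => hy (Or.inl (c ▸ hx)),
        fun c => hy (Or.inr (mem_biUnion hx c))⟩⟩
  have vi : Function.Injective v := fun a b h => by_contra fun c => (hv c).1 h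
  let e : ℕ → XX G o hG := fun k => ⟨Pi.single (v k) 1, fun ε hε =>
    ((((hf (v k)).image fun w => (v k, w))).union ((hf (v k)).image fun w => (w, v k))).subset
      fun p h => by
        by_cases c : p.1 = v k
        · exact Or.inl ⟨p.2, c ▸ h.1, Prod.ext c.symm rfl⟩
        by_cases d : p.2 = v k
        · exact Or.inr ⟨p.1, d ▸ h.1.symm, Prod.ext rfl d.symm⟩
        exact (hε.not_ge (by simpa [c, d] using h.2)).elim⟩
  have he : ∀ a : ℕ →₀ ℂ, (Finsupp.linearCombination ℂ e a).1 = a.mapDomain v := fun a => by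
    induction a using Finsupp.induction_linear with
    | zero => simp; rfl
    | add a b ha hb => rw [map_add, Finsupp.mapDomain_add, Finsupp.coe_add, ← ha, ← hb]; rfl
    | single k c =>
      rw [Finsupp.linearCombination_single, Finsupp.mapDomain_single, Finsupp.single_eq_pi_single]
      exact (Pi.single_smul' _ c 1).symm.trans (by simp)
  have : Nontrivial (XX G o hG) := ⟨e 0, 0, fun h => by
    have : (Pi.single (v 0) 1 : T → ℂ) (v 0) = 0 := congrFun (congrArg Subtype.val h) (v 0)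
    simp at this⟩
  obtain ⟨M, m1, m2, m3⟩ := hsub (T := B) ((hy ⟨x0, hx0⟩).2 hx) (Metric.dense_iff.2 fun f ε hε => by
    obtain ⟨R, hR⟩ := (((f.2 (ε / 4) (by positivity)).image fun e =>
      max ‖f.1 e.1‖ ‖f.1 e.2‖).insert ‖f.1 o‖).bddAbove
    have R0 := hR (mem_insert _ _)
    refine ⟨⟨cc R ∘ f.1, L0.mono f.2 two_pos fun _ _ => cc_lip _ _ _⟩, ?_, _,
      ob _ _ fun w => cc_bd ((norm_nonneg _).trans R0) _⟩
    rw [mem_ball_iff_norm]
    refine ((norm_iff _ (3 * (ε / 4))).2 ⟨?_, fun a b h => ?_⟩).trans_lt (by linarith)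
    · show ‖cc R (f.1 o) - f.1 o‖ ≤ _
      rw [cc_eq R0, sub_self, norm_zero]; positivity
    show ‖cc R (f.1 a) - f.1 a - (cc R (f.1 b) - f.1 b)‖ ≤ _
    rcases le_total (ε / 4) ‖f.1 a - f.1 b‖ with c | c
    · have := max_le_iff.1 (hR (Or.inr ⟨(a, b), ⟨h, c⟩, rfl⟩))
      rw [cc_eq this.1, cc_eq this.2, sub_self, sub_self, sub_self, norm_zero]; positivity
    · rw [sub_sub_sub_comm]
      linarith [norm_sub_le (cc R (f.1 a) - cc R (f.1 b)) (f.1 a - f.1 b), cc_lip R (f.1 a) (f.1 b)])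
    e (fun a k => by
      obtain ⟨w, hw⟩ := hG.preconnected.exists_adj_of_nontrivial (v k)
      have := ((norm_iff _ _).1 (le_refl ‖Finsupp.linearCombination ℂ e a‖)).2 _ _ hw
      rwa [he, Finsupp.mapDomain_apply vi, Finsupp.mapDomain_notin_range, sub_zero] at this
      rintro ⟨j, rfl⟩
      exact (hv fun c => hw.ne (congrArg v c)).2 hw)
    fun n a M h => ob _ _ (fun w => by
      rw [he]
      by_cases c : w ∈ range v
      · obtain ⟨j, rfl⟩ := c
        rw [Finsupp.mapDomain_apply vi]; exact h j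
      · rw [Finsupp.mapDomain_notin_range _ _ c, norm_zero]; exact (norm_nonneg _).trans (h 0)) n
  let ι : XX G o hG →ₗ[ℂ] T → ℂ := (SS G).subtype
  refine ⟨Submodule.map ι M, ?_, fun f a b => ⟨⟨f, a⟩, ?_, rfl⟩, fun h => m2 ?_, ?_⟩
  · rintro _ ⟨f, -, rfl⟩; exact f.2
  · refine m1.closure_subset (Metric.mem_closure_iff.2 fun ε hε => ?_)
    obtain ⟨_, ⟨g, c, rfl⟩, d⟩ := b _ (half_pos hε)
    exact ⟨g, c, (dist_eq_norm _ _).trans_lt (((norm_iff _ _).2 d).trans_lt (half_lt_self hε))⟩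
  · exact (Submodule.equivMapOfInjective ι Subtype.val_injective M).symm.finiteDimensional
  · rintro _ ⟨f, a, rfl⟩ b
    exact (hy f).1 (m3 f a fun c => b (congrArg Subtype.val c))

end Pool.Agent.Results.MP_b108d3_an.Yes
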